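import Pool.Agent.N869.GK.StmX
import Pool.Agent.N595.GK.INJ
import Pool.Agent.W335.BMX.Odd

/-!
# GK/X-SUR: every solution is in the 2-Selmer group (helper454, for project GK of helper869)
-/

set_option autoImplicit false
set_option linter.unusedVariables false

open scoped Classical

namespace Pool.Agent.N454.GK

open Finset
open Pool.Agent.Y703.CQ (nr)
open Pool.Agent.TH841.SH (LocC SelG)
open Pool.Agent.N869.GK Pool.Agent.N869.GK.D Pool.Agent.N869.GK.X
open Pool.Agent.N595.GK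

/-! ### Local squares and points of the twists -/

lemma padic_of_sy {p : ℕ} [hp : Fact p.Prime] (hp2 : p ≠ 2) {n : ℤ} (hn : ¬ (p : ℤ) ∣ n)
    (h : sy p n = 0) : IsSquare ((n : ℤ) : ℚ_[p]) := by
  have hn0 : ((n : ℤ) : ZMod p) ≠ 0 := fun h => hn ((ZMod.intCast_zmod_eq_zero_iff_dvd n p).1 h)
  have hsq : IsSquare ((n : ℤ) : ZMod p) := by
    by_contra hc
    unfold sy at h
    rw [if_neg hc] at h
    exact absurd h (by decide)
  obtain ⟨a, ha⟩ := hsq
  have ha0 : a ≠ 0 := by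
    rintro rfl
    exact hn0 (by rw [ha, mul_zero])
  have h1 := Pool.Agent.W335.BMX.isSquare_coe
    (Pool.Agent.W335.BMX.sq_of_residue hp2 ((n : ℤ) : ℤ_[p]) a ha0 (by
      rw [Pool.Agent.W335.BMX.toZMod_int, ha, sq]))
  simpa using h1

lemma loc_scale' {K : Type} [Field K] {e1 e2 e3 : ℤ} {d : ℕ} (hd : ((d : ℤ) : K) ≠ 0)
    (hs : IsSquare ((d : ℤ) : K)) {m n : ℤ} (h : LocC K e1 e2 e3 m n) :
    LocC K (d * e1) (d * e2) (d * e3) m n := by
  obtain ⟨δ, hδ⟩ := hs
  obtain ⟨x, y, hy, hxy, ⟨z, hz⟩, ⟨t, ht⟩⟩ := h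
  have hδ0 : δ ≠ 0 := by
    rintro rfl
    rw [mul_zero] at hδ
    exact hd hδ
  push_cast at hδ
  refine ⟨δ * δ * x, δ * δ * δ * y, mul_ne_zero (by positivity) hy, ?_, ⟨δ * z, ?_⟩, ⟨δ * t, ?_⟩⟩
  · push_cast
    rw [hδ, mul_pow, hxy]
    ring
  · push_cast
    rw [hδ]
    linear_combination (δ * δ) * hz
  · push_cast
    rw [hδ]
    linear_combination (δ * δ) * ht

section cls

variable {b : Finset ℕ} {r : ℕ} {g : Fin r → ℤ}

lemma rep_not_dvd (hG : S_GEN) (hg : Gen b g) {p : ℕ} (hp : p.Prime) (hpM : ¬ p ∣ MM b)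
    (s : Gr r) : ¬ (p : ℤ) ∣ rep g s := by
  obtain ⟨g1, g2, g3, g4, g5⟩ := hG.2 b r g hg
  intro h
  exact hpM ((prime_dvd_MM hg.odd hp).2 (g2 _ p hp h))

/-- the prime divisors of the products -/
lemma dvd_prod {T : Finset ℕ} (hTp : ∀ p ∈ T, p.Prime) (w : ℕ → ZMod 2) {p : ℕ} (hp : p.Prime) :
    (p : ℤ) ∣ ((∏ q ∈ T, (if w q = 1 then q else 1) : ℕ) : ℤ) ↔ p ∈ T ∧ w p = 1 := by
  rw [Int.natCast_dvd_natCast, ← Finset.prod_filter, hp.prime.dvd_finsetProd_iff]
  constructor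
  · rintro ⟨q, hq, h⟩
    obtain ⟨h1, h2⟩ := Finset.mem_filter.1 hq
    rw [(Nat.prime_dvd_prime_iff_eq hp (hTp q h1)).1 h]
    exact ⟨h1, h2⟩
  · rintro ⟨h1, h2⟩
    exact ⟨p, Finset.mem_filter.2 ⟨h1, h2⟩, dvd_rfl⟩

lemma squarefree_prod {T : Finset ℕ} (hTp : ∀ p ∈ T, p.Prime) (w : ℕ → ZMod 2) :
    Squarefree (∏ q ∈ T, (if w q = 1 then q else 1)) := by
  induction T using Finset.induction_on with
  | empty => simp
  | insert q T hq ih =>
    rw [Finset.prod_insert hq, Nat.squarefree_mul_iff]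
    have hqp := hTp q (Finset.mem_insert_self _ _)
    refine ⟨?_, ?_, ih fun p hp => hTp p (Finset.mem_insert_of_mem hp)⟩
    · split_ifs
      · rw [hqp.coprime_iff_not_dvd, ← Int.natCast_dvd_natCast,
          dvd_prod (fun p hp => hTp p (Finset.mem_insert_of_mem hp)) w hqp]
        exact fun h => hq h.1
      · exact Nat.coprime_one_left _
    · split_ifs
      · exact hqp.prime.squarefree
      · exact squarefree_one

lemma squarefree_F (hG : S_GEN) (hg : Gen b g) (s : Gr r)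
    {T : Finset ℕ} (hTp : ∀ p ∈ T, p.Prime) (hTM : ∀ p ∈ T, ¬ p ∣ MM b) (w : ℕ → ZMod 2) :
    Squarefree (rep g s * ((∏ q ∈ T, (if w q = 1 then q else 1) : ℕ) : ℤ)) := by
  obtain ⟨g1, g2, g3, g4, g5⟩ := hG.2 b r g hg
  rw [← Int.squarefree_natAbs, Int.natAbs_mul, Int.natAbs_natCast, Nat.squarefree_mul_iff]
  refine ⟨?_, Int.squarefree_natAbs.2 (g1 s), squarefree_prod hTp w⟩
  refine Nat.Coprime.prod_right fun q hq => ?_
  split_ifs
  · rw [Nat.coprime_comm, (hTp q hq).coprime_iff_not_dvd, ← Int.natCast_dvd]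
    exact rep_not_dvd hG hg (hTp q hq) (hTM q hq) s
  · exact Nat.coprime_one_right _

/-- one component of the equations at `p`, the converse -/
lemma one_row' (hG : S_GEN) (hg : Gen b g) {p : ℕ} [hp : Fact p.Prime] (hp2 : p ≠ 2)
    (hpM : ¬ p ∣ MM b)
    (h4 : ∀ x : Gr r, dot x (lam g p) = sy p (rep g x))
    {T : Finset ℕ} (hpT : p ∈ T) (hT : ∀ q ∈ T, q.Prime) (s : Gr r) (w : ℕ → ZMod 2)
    (k a A B : ℤ) (a' b' : ZMod 2) (hA : ¬ (p : ℤ) ∣ A) (hB : ¬ (p : ℤ) ∣ B)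
    (hka : (if w p = 1 then (p : ℤ) else 1) * a = k * k)
    (h0 : dot s (lam g p) + ∑ q ∈ T.erase p, w q * nr p q + a' * sy p A + b' * sy p B = 0) :
    IsSquare (((rep g s * ((∏ q ∈ T, (if w q = 1 then q else 1) : ℕ) : ℤ)) *
      (a * (if a' = 1 then A else 1) * (if b' = 1 then B else 1)) : ℤ) : ℚ_[p]) := by
  have hT' : ∀ q ∈ T.erase p, ¬ p ∣ q := by
    intro q hq h
    rw [Nat.prime_dvd_prime_iff_eq hp.out (hT q (Finset.mem_of_mem_erase hq))] at h
    exact Finset.ne_of_mem_erase hq h.symm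
  obtain ⟨p1, p2⟩ := sy_prod (p := p) (T.erase p) hT' w
  have hrep : ¬ (p : ℤ) ∣ rep g s := rep_not_dvd hG hg hp.out hpM s
  have hsyr : sy p (rep g s) = dot s (lam g p) := (h4 s).symm
  set Q : ℤ := ((∏ q ∈ T.erase p, (if w q = 1 then q else 1) : ℕ) : ℤ) with hQ
  have hmQ : rep g s * ((∏ q ∈ T, (if w q = 1 then q else 1) : ℕ) : ℤ) =
      rep g s * ((if w p = 1 then (p : ℤ) else 1) * Q) := by
    rw [← Finset.mul_prod_erase T _ hpT, hQ]
    push_cast
    congr 2
  have e : (rep g s * ((∏ q ∈ T, (if w q = 1 then q else 1) : ℕ) : ℤ)) *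
      (a * (if a' = 1 then A else 1) * (if b' = 1 then B else 1)) =
      k * k * (rep g s * Q * (if a' = 1 then A else 1) * (if b' = 1 then B else 1)) := by
    rw [hmQ, ← hka]; ring
  have hA' : ¬ (p : ℤ) ∣ (if a' = 1 then A else 1) := ite_not_dvd _ hA
  have hB' : ¬ (p : ℤ) ∣ (if b' = 1 then B else 1) := ite_not_dvd _ hB
  have h1 := mul_not_dvd hrep p1
  have h2 := mul_not_dvd h1 hA'
  have h3 := mul_not_dvd h2 hB'
  have h5 : sy p (rep g s * Q * (if a' = 1 then A else 1) * (if b' = 1 then B else 1)) = 0 := by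
    rw [sy_mul h2 hB', sy_mul h1 hA', sy_mul hrep p1, sy_ite, sy_ite, hsyr, p2]
    exact h0
  rw [e]
  obtain ⟨z, hz⟩ := padic_of_sy hp2 h3 h5
  refine ⟨(k : ℚ_[p]) * z, ?_⟩
  rw [Int.cast_mul, hz]
  push_cast
  ring

end cls

/-- the class of a combination of the points of order two -/
lemma tor_loc {K : Type} [Field K] {e1 e2 e3 : ℤ} (hK : GrpK K e1 e2 e3) (h12 : e1 ≠ e2)
    (h13 : e1 ≠ e3) (h23 : e2 ≠ e3) (x y : ZMod 2) :
    LocC K e1 e2 e3 ((if x = 1 then e2 - e1 else 1) * (if y = 1 then (e1 - e2) * (e1 - e3) else 1))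
      ((if x = 1 then (e2 - e1) * (e2 - e3) else 1) * (if y = 1 then e1 - e2 else 1)) := by
  have a12 := sub_ne_zero.2 h12
  have a21 := sub_ne_zero.2 h12.symm
  have a13 := sub_ne_zero.2 h13
  have a23 := sub_ne_zero.2 h23
  rcases zmod2_cases x with hx | hx <;> rcases zmod2_cases y with hy | hy <;> subst hx <;> subst hy
  · simpa using hK.one
  · simpa using hK.t1
  · simpa using hK.t2
  · have := hK.mul _ _ _ _ a21 (mul_ne_zero a21 a23) (mul_ne_zero a12 a13) a12 hK.t2 hK.t1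
    simpa using this

theorem t_SUR : S_SUR := by
  intro hSUB hG hLAB hLCG hGOOD hUNR hRAM b e1 e2 e3 r g hg hC W hW d hd hdc hd0 hfin
  obtain ⟨g1, g2, g3, g4, g5⟩ := hG.2 b r g hg
  obtain ⟨l1, l2, l3, l4, l5, l6, l7⟩ := hLAB hG b r g hg
  set T := d.primeFactors with hT
  set D := PD g e1 e2 e3 W with hD
  have hdne : d ≠ 0 := hd.ne_zero
  have hTp : ∀ p ∈ T, p.Prime := fun p hp => Nat.prime_of_mem_primeFactors hp
  have hTd : ∀ p ∈ T, p ∣ d := fun p hp => Nat.dvd_of_mem_primeFactors hp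
  have hTc : ∀ p ∈ T, p.Coprime (MM b) := fun p hp => Nat.Coprime.coprime_dvd_left (hTd p hp) hdc
  have hTM : ∀ p ∈ T, ¬ p ∣ MM b := fun p hp =>
    (Nat.Prime.coprime_iff_not_dvd (hTp p hp)).1 (hTc p hp)
  set F : (Fin 2 → Gr r) × (ℕ → V) → ℤ × ℤ := fun x =>
    (rep g (x.1 0) * ((∏ q ∈ T, (if x.2 q 0 = 1 then q else 1) : ℕ) : ℤ),
     rep g (x.1 1) * ((∏ q ∈ T, (if x.2 q 1 = 1 then q else 1) : ℕ) : ℤ)) with hF
  have hbad : ∀ p : ℕ, p.Prime → (p : ℤ) ∣ (e1 - e2) * (e1 - e3) * (e2 - e3) → p = 2 ∨ p ∈ b := by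
    intro p hp h
    by_cases h2 : p = 2
    · exact Or.inl h2
    · exact Or.inr ((hC.mem p).2 ⟨hp, h2, h⟩)
  have hPne : ∀ w : ℕ → ZMod 2, ((∏ q ∈ T, (if w q = 1 then q else 1) : ℕ) : ℤ) ≠ 0 := by
    intro w
    exact_mod_cast (squarefree_prod hTp w).ne_zero
  refine Set.ncard_le_ncard_of_injOn F ?_ ?_ hfin
  · rintro ⟨s, v⟩ ⟨hv0, hvW, hrow⟩
    simp only at hv0 hvW hrow
    have hX := hW _ hvW
    set w0 : ℕ → ZMod 2 := fun q => v q 0 with hw0
    set w1 : ℕ → ZMod 2 := fun q => v q 1 with hw1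
    obtain ⟨q0, r0⟩ := lam_prod l1 T hTc w0
    obtain ⟨q1, r1⟩ := lam_prod l1 T hTc w1
    obtain ⟨hR, hP⟩ := hX ![∏ q ∈ T, (if w0 q = 1 then q else 1),
      ∏ q ∈ T, (if w1 q = 1 then q else 1)] (by
        intro c
        fin_cases c
        · exact ⟨q0, r0⟩
        · exact ⟨q1, r1⟩)
    have yd := l7 d hdc hd0
    have hm := squarefree_F hG hg (s 0) hTp hTM w0
    have hn := squarefree_F hG hg (s 1) hTp hTM w1
    change LocC ℝ e1 e2 e3 (rep g (s 0) * ((∏ q ∈ T, (if w0 q = 1 then q else 1) : ℕ) : ℤ))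
      (rep g (s 1) * ((∏ q ∈ T, (if w1 q = 1 then q else 1) : ℕ) : ℤ)) at hR
    change ∀ (p : ℕ) [Fact p.Prime], p ∣ MM b → LocC ℚ_[p] e1 e2 e3
      (rep g (s 0) * ((∏ q ∈ T, (if w0 q = 1 then q else 1) : ℕ) : ℤ))
      (rep g (s 1) * ((∏ q ∈ T, (if w1 q = 1 then q else 1) : ℕ) : ℤ)) at hP
    refine ⟨hm, hn, loc_scale' (by exact_mod_cast hdne) yd.1 hR, fun p hpF => ?_⟩
    by_cases hpM : p ∣ MM b
    · exact loc_scale' (by exact_mod_cast hdne) (yd.2 p hpM) (hP p hpM)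
    have hp : p.Prime := hpF.out
    have hp2b : ¬ (p = 2 ∨ p ∈ b) := fun h => hpM ((prime_dvd_MM hg.odd hp).2 h)
    have hp2 : p ≠ 2 := fun h => hp2b (Or.inl h)
    have hpe : ¬ (p : ℤ) ∣ (e1 - e2) * (e1 - e3) * (e2 - e3) := fun h => hp2b (hbad p hp h)
    by_cases hpd : p ∣ d
    · have hpT : p ∈ T := Nat.mem_primeFactors.2 ⟨hp, hpd, hdne⟩
      have h4' : ∀ x : Gr r, dot x (lam g p) = sy p (rep g x) := by
        intro x
        rw [l4 p hp hpM x]
        unfold sy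
        congr
      have hd' : d = p * ∏ q ∈ T.erase p, (if (1 : ZMod 2) = 1 then q else 1) := by
        simp only [if_true]
        have h1 := Finset.mul_prod_erase T (fun q => q) hpT
        have h2 := Nat.prod_primeFactors_of_squarefree hd
        rw [← hT] at h2
        rw [h2] at h1
        exact h1.symm
      have hT' : ∀ q ∈ T.erase p, ¬ p ∣ q := by
        intro q hq h
        rw [Nat.prime_dvd_prime_iff_eq hp (hTp q (Finset.mem_of_mem_erase hq))] at h
        exact Finset.ne_of_mem_erase hq h.symm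
      obtain ⟨p1, p2⟩ := sy_prod (p := p) (T.erase p) hT' (fun _ => 1)
      set d' : ℤ := ((∏ q ∈ T.erase p, (if (1 : ZMod 2) = 1 then q else 1) : ℕ) : ℤ) with hd''
      have hdd : (d : ℤ) = p * d' := by
        rw [hd'']
        exact_mod_cast hd'
      -- the symbols of the constants
      have k12 := sy_ecl hG hg hpM h4' (n := e1 - e2) (sub_ne_zero.2 hC.h12) (by
        intro q hq h
        exact hbad q hq (Dvd.dvd.mul_right (Dvd.dvd.mul_right h _) _))
      have km := sy_ecl hG hg hpM h4' (n := -1) (by norm_num) (by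
        intro q hq h
        exfalso
        have h1 : (q : ℤ) ∣ 1 := by rwa [Int.dvd_neg] at h
        exact (Nat.prime_iff_prime_int.1 hq).not_isUnit (isUnit_of_dvd_one h1))
      have kaa := sy_ecl hG hg hpM h4' (n := (e1 - e2) * (e1 - e3))
        (mul_ne_zero (sub_ne_zero.2 hC.h12) (sub_ne_zero.2 hC.h13)) (by
        intro q hq h
        exact hbad q hq (Dvd.dvd.mul_right h _))
      have kbb := sy_ecl hG hg hpM h4' (n := (e2 - e1) * (e2 - e3))
        (mul_ne_zero (sub_ne_zero.2 hC.h12.symm) (sub_ne_zero.2 hC.h23)) (by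
        intro q hq h
        refine hbad q hq ?_
        have e : (e1 - e2) * (e1 - e3) * (e2 - e3) = (e2 - e1) * (e2 - e3) * (-(e1 - e3)) := by ring
        rw [e]
        exact Dvd.dvd.mul_right h _)
      have k21 : ¬ (p : ℤ) ∣ (e2 - e1) ∧ sy p (e2 - e1) = dot (ecl g (-1)) (lam g p) +
          dot (ecl g (e1 - e2)) (lam g p) := by
        have e : e2 - e1 = (-1) * (e1 - e2) := by ring
        rw [e]
        exact ⟨mul_not_dvd km.1 k12.1, by rw [sy_mul km.1 k12.1, km.2, k12.2]⟩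
      have R0 : dot (s 0) (lam g p) + ∑ j ∈ T, nr p j * (w0 p + w0 j) +
          (dot (ecl g (e1 - e2) + ecl g (-1)) (lam g p) * w0 p +
            dot (ecl g ((e1 - e2) * (e1 - e3))) (lam g p) * w1 p) = 0 := congrFun (hrow p hpT) 0
      have R1 : dot (s 1) (lam g p) + ∑ j ∈ T, nr p j * (w1 p + w1 j) +
          (dot (ecl g ((e2 - e1) * (e2 - e3))) (lam g p) * w0 p +
            dot (ecl g (e1 - e2)) (lam g p) * w1 p) = 0 := congrFun (hrow p hpT) 1
      have E0 := one_row' hG hg hp2 hpM h4' hpT hTp (s 0) w0 (if w0 p = 1 then (p : ℤ) else 1)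
        (if w0 p = 1 then (p : ℤ) else 1) (d' * (e2 - e1)) ((e1 - e2) * (e1 - e3)) (w0 p) (w1 p)
        (mul_not_dvd p1 k21.1) kaa.1 rfl (by
          rw [sy_mul p1 k21.1, p2, k21.2, kaa.2, ← R0, row_sum hpT, dot_add_left]
          ring)
      have E1 := one_row' hG hg hp2 hpM h4' hpT hTp (s 1) w1 (if w1 p = 1 then (p : ℤ) else 1)
        (if w1 p = 1 then (p : ℤ) else 1) ((e2 - e1) * (e2 - e3)) (d' * (e1 - e2)) (w0 p) (w1 p)
        kbb.1 (mul_not_dvd p1 k12.1) rfl (by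
          rw [sy_mul p1 k12.1, p2, k12.2, kbb.2, ← R1, row_sum hpT]
          ring)
      have hdz : (d : ℤ) ≠ 0 := by exact_mod_cast hdne
      have n12 : (d : ℤ) * e1 ≠ d * e2 := fun h => hC.h12 (mul_left_cancel₀ hdz h)
      have n13 : (d : ℤ) * e1 ≠ d * e3 := fun h => hC.h13 (mul_left_cancel₀ hdz h)
      have n23 : (d : ℤ) * e2 ≠ d * e3 := fun h => hC.h23 (mul_left_cancel₀ hdz h)
      have hK := (hLCG _ _ _ n12 n13 n23).2 p
      have hne : ∀ (x : ZMod 2) (z : ℤ), z ≠ 0 → (if x = 1 then z else 1) ≠ 0 := by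
        intro x z hz
        split_ifs
        · exact hz
        · norm_num
      refine hK.cls _ _ _ _ ?_ ?_ hm.ne_zero hn.ne_zero ?_ ?_ (tor_loc hK n12 n13 n23 (w0 p) (w1 p))
      · exact mul_ne_zero (hne _ _ (sub_ne_zero.2 n12.symm))
          (hne _ _ (mul_ne_zero (sub_ne_zero.2 n12) (sub_ne_zero.2 n13)))
      · exact mul_ne_zero (hne _ _ (mul_ne_zero (sub_ne_zero.2 n12.symm) (sub_ne_zero.2 n23)))
          (hne _ _ (sub_ne_zero.2 n12))
      · have e : ((if w0 p = 1 then (d : ℤ) * e2 - d * e1 else 1) *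
            (if w1 p = 1 then ((d : ℤ) * e1 - d * e2) * (d * e1 - d * e3) else 1)) *
            (rep g (s 0) * ((∏ q ∈ T, (if w0 q = 1 then q else 1) : ℕ) : ℤ)) =
            ((rep g (s 0) * ((∏ q ∈ T, (if w0 q = 1 then q else 1) : ℕ) : ℤ)) *
            ((if w0 p = 1 then (p : ℤ) else 1) * (if w0 p = 1 then d' * (e2 - e1) else 1) *
              (if w1 p = 1 then (e1 - e2) * (e1 - e3) else 1))) *
            ((if w1 p = 1 then (d : ℤ) else 1) * (if w1 p = 1 then (d : ℤ) else 1)) := by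
          split_ifs <;> (try rw [hdd]) <;> ring
        rw [e, Int.cast_mul]
        exact E0.mul ⟨_, by push_cast; rfl⟩
      · have e : ((if w0 p = 1 then ((d : ℤ) * e2 - d * e1) * (d * e2 - d * e3) else 1) *
            (if w1 p = 1 then ((d : ℤ) * e1 - d * e2) else 1)) *
            (rep g (s 1) * ((∏ q ∈ T, (if w1 q = 1 then q else 1) : ℕ) : ℤ)) =
            ((rep g (s 1) * ((∏ q ∈ T, (if w1 q = 1 then q else 1) : ℕ) : ℤ)) *
            ((if w1 p = 1 then (p : ℤ) else 1) *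
              (if w0 p = 1 then (e2 - e1) * (e2 - e3) else 1) *
              (if w1 p = 1 then d' * (e1 - e2) else 1))) *
            ((if w0 p = 1 then (d : ℤ) else 1) * (if w0 p = 1 then (d : ℤ) else 1)) := by
          split_ifs <;> (try rw [hdd]) <;> ring
        rw [e, Int.cast_mul]
        exact E1.mul ⟨_, by push_cast; rfl⟩
    · have hdp : ¬ (p : ℤ) ∣ (d : ℤ) := by rw [Int.natCast_dvd_natCast]; exact hpd
      have hpT : p ∉ T := fun h => hpd (hTd p h)
      refine hGOOD hLCG (d * e1) (d * e2) (d * e3) p hp2 ?_ _ _ ?_ ?_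
      · intro h
        have e : ((d : ℤ) * e1 - d * e2) * (d * e1 - d * e3) * (d * e2 - d * e3) =
          (d * d * d) * ((e1 - e2) * (e1 - e3) * (e2 - e3)) := by ring
        rw [e] at h
        exact mul_not_dvd (mul_not_dvd (mul_not_dvd hdp hdp) hdp) hpe h
      · exact mul_not_dvd (rep_not_dvd hG hg hp hpM _) fun h => hpT ((dvd_prod hTp w0 hp).1 h).1
      · exact mul_not_dvd (rep_not_dvd hG hg hp hpM _) fun h => hpT ((dvd_prod hTp w1 hp).1 h).1
  · rintro ⟨s, v⟩ ⟨hv0, hvW, hrow⟩ ⟨s', v'⟩ ⟨hv0', hvW', hrow'⟩ hxy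
    simp only [hF, Prod.mk.injEq] at hxy
    simp only at hv0 hv0'
    obtain ⟨h0, h1⟩ := hxy
    have key : ∀ (x x' : Gr r) (w w' : ℕ → ZMod 2), (∀ q, q ∉ T → w q = 0) →
        (∀ q, q ∉ T → w' q = 0) →
        rep g x * ((∏ q ∈ T, (if w q = 1 then q else 1) : ℕ) : ℤ) =
        rep g x' * ((∏ q ∈ T, (if w' q = 1 then q else 1) : ℕ) : ℤ) → x = x' ∧ w = w' := by
      intro x x' w w' hw hw' h
      have hww : w = w' := by
        funext q
        by_cases hq : q ∈ T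
        · have hq' : Prime (q : ℤ) := Nat.prime_iff_prime_int.1 (hTp q hq)
          have i1 : (q : ℤ) ∣ rep g x * ((∏ q ∈ T, (if w q = 1 then q else 1) : ℕ) : ℤ) ↔
              w q = 1 := by
            rw [hq'.dvd_mul, or_iff_right (rep_not_dvd hG hg (hTp q hq) (hTM q hq) x),
              dvd_prod hTp w (hTp q hq)]
            exact and_iff_right hq
          have i2 : (q : ℤ) ∣ rep g x' * ((∏ q ∈ T, (if w' q = 1 then q else 1) : ℕ) : ℤ) ↔
              w' q = 1 := by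
            rw [hq'.dvd_mul, or_iff_right (rep_not_dvd hG hg (hTp q hq) (hTM q hq) x'),
              dvd_prod hTp w' (hTp q hq)]
            exact and_iff_right hq
          rw [h, i2] at i1
          rcases zmod2_cases (w q) with a | a <;> rcases zmod2_cases (w' q) with a' | a'
          · rw [a, a']
          · exact absurd (i1.1 a') (by rw [a]; decide)
          · exact absurd (i1.2 a) (by rw [a']; decide)
          · rw [a, a']
        · rw [hw q hq, hw' q hq]
      refine ⟨?_, hww⟩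
      rw [hww] at h
      have h' := mul_right_cancel₀ (hPne w') h
      exact g4 _ _ ⟨rep g x', by rw [h']⟩
    obtain ⟨a0, b0⟩ := key (s 0) (s' 0) (fun q => v q 0) (fun q => v' q 0)
      (fun q hq => by rw [hv0 q hq]; rfl) (fun q hq => by rw [hv0' q hq]; rfl) h0
    obtain ⟨a1, b1⟩ := key (s 1) (s' 1) (fun q => v q 1) (fun q => v' q 1)
      (fun q hq => by rw [hv0 q hq]; rfl) (fun q hq => by rw [hv0' q hq]; rfl) h1
    rw [Prod.mk.injEq]
    constructor
    · funext c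
      fin_cases c
      · exact a0
      · exact a1
    · funext q c
      fin_cases c
      · exact congrFun b0 q
      · exact congrFun b1 q

end Pool.Agent.N454.GK
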